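import Mathlib
import Pool.Agent.R443.PS

/-!
# Coloured ternary partitions: the operator `U` and the lattice `u ℤ[u]`

`u = 3 X / (1 - X) ^ 2`, `1 + u = (1 - X ^ 3) / (1 - X) ^ 3`, and `U` takes every third coefficient.
-/

set_option autoImplicit false

namespace Pool.Agent.P8H15.DM

open PowerSeries Finset Pool.Agent.R443.PS

/-- the substitution of `X ^ 3` for `X` -/
noncomputable def V (f : ℤ⟦X⟧) : ℤ⟦X⟧ := expand 3 (by norm_num) f

/-- every third coefficient -/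
noncomputable def U (f : ℤ⟦X⟧) : ℤ⟦X⟧ := mk fun n => coeff (3 * n) f

theorem coeff_U (f : ℤ⟦X⟧) (n : ℕ) : coeff n (U f) = coeff (3 * n) f := by
  unfold U; rw [coeff_mk]

theorem U_add (f g : ℤ⟦X⟧) : U (f + g) = U f + U g := by
  ext n; simp [coeff_U]

theorem U_sub (f g : ℤ⟦X⟧) : U (f - g) = U f - U g := by
  ext n; simp [coeff_U]

theorem U_zero : U 0 = 0 := by
  ext n; simp [coeff_U]

theorem U_intCast_mul (c : ℤ) (f : ℤ⟦X⟧) : U ((c : ℤ⟦X⟧) * f) = (c : ℤ⟦X⟧) * U f := by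
  ext n
  rw [coeff_U, ← zsmul_eq_mul, ← zsmul_eq_mul, map_zsmul, map_zsmul, coeff_U]

theorem U_sum {ι : Type*} (s : Finset ι) (f : ι → ℤ⟦X⟧) : U (∑ i ∈ s, f i) = ∑ i ∈ s, U (f i) := by
  classical
  induction s using Finset.induction_on with
  | empty => simp [U_zero]
  | insert a s ha ih => rw [sum_insert ha, sum_insert ha, U_add, ih]

theorem U_V_mul (g f : ℤ⟦X⟧) : U (V g * f) = g * U f := by
  ext n
  rw [coeff_U]
  unfold V
  rw [coeff_expand_mul', coeff_mul, Finset.Nat.sum_antidiagonal_eq_sum_range_succ_mk,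
    Nat.mul_div_cancel_left _ (by norm_num : 0 < 3)]
  apply Finset.sum_congr rfl
  intro b hb
  rw [mem_range] at hb
  rw [coeff_U, show 3 * n - 3 * b = 3 * (n - b) by omega]

/-- `u = 3 X / (1 - X) ^ 2` -/
noncomputable def w : ℤ⟦X⟧ := X * iv 1 ^ 2

noncomputable def u : ℤ⟦X⟧ := 3 * w

theorem one_iv : (1 - X : ℤ⟦X⟧) * iv 1 = 1 := by
  have h := mul_iv (d := 1) one_ne_zero
  rwa [pow_one] at h

theorem V_X : V (X : ℤ⟦X⟧) = X ^ 3 := by unfold V; rw [expand_X]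

theorem V_mul (f g : ℤ⟦X⟧) : V (f * g) = V f * V g := by unfold V; rw [map_mul]

theorem V_pow (f : ℤ⟦X⟧) (k : ℕ) : V (f ^ k) = V f ^ k := by unfold V; rw [map_pow]

theorem V_iv {d : ℕ} (hd : d ≠ 0) : V (iv d) = iv (3 * d) := by
  have h := congrArg V (iv_mul hd)
  rw [V_mul] at h
  have h1 : V (1 - X ^ d : ℤ⟦X⟧) = 1 - X ^ (3 * d) := by
    unfold V
    rw [map_sub, map_one, map_pow, expand_X, ← pow_mul]
  have h2 : V (1 : ℤ⟦X⟧) = 1 := by unfold V; rw [map_one]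
  rw [h1, h2] at h
  have h3 := eq_iv_pow (d := 3 * d) (k := 1) (by omega) (by rw [pow_one]; exact h)
  rwa [pow_one] at h3

/-- `1 + u = (1 - X ^ 3) / (1 - X) ^ 3` -/
theorem one_add_u : 1 + u = (1 - X ^ 3) * iv 1 ^ 3 := by
  have h := one_iv
  unfold u w
  have h2 : (1 : ℤ⟦X⟧) = ((1 - X) * iv 1) ^ 2 := by rw [h, one_pow]
  have h3 : (1 - X ^ 3 : ℤ⟦X⟧) * iv 1 ^ 3 = (1 + X + X ^ 2) * iv 1 ^ 2 * ((1 - X) * iv 1) := by ring
  rw [h3, h, mul_one]
  calc (1 : ℤ⟦X⟧) + 3 * (X * iv 1 ^ 2) = ((1 - X) * iv 1) ^ 2 + 3 * (X * iv 1 ^ 2) := by rw [← h2]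
    _ = (1 + X + X ^ 2) * iv 1 ^ 2 := by ring

theorem V_w : V w = X ^ 3 * iv 3 ^ 2 := by
  unfold w
  rw [V_mul, V_pow, V_X, V_iv one_ne_zero, mul_one]

/-- the cubic equation of `w` over the series in `X ^ 3` -/
theorem w_cube : w ^ 3 = V w * (1 + u) ^ 2 := by
  rw [V_w, one_add_u]
  have h := mul_iv (d := 3) (by norm_num)
  calc w ^ 3 = X ^ 3 * iv 1 ^ 6 * ((1 - X ^ 3) * iv 3) ^ 2 := by rw [h]; unfold w; ring
    _ = _ := by ring

theorem coeff_w (n : ℕ) : coeff n w = n := by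
  unfold w
  rcases n with _ | n
  · simp
  · rw [coeff_succ_X_mul, show (2 : ℕ) = 1 + 1 by rfl, coeff_iv_pow_succ one_ne_zero]
    simp [Nat.choose_one_right, add_comm]

theorem coeff_w_sq (n : ℕ) : coeff (n + 1) (w ^ 2) = ((Nat.choose (n + 2) 3 : ℕ) : ℤ) := by
  have e : w ^ 2 = X * (X * iv 1 ^ (3 + 1)) := by unfold w; ring
  rw [e, coeff_succ_X_mul]
  rcases n with _ | n
  · simp
  · rw [coeff_succ_X_mul, coeff_iv_pow_succ one_ne_zero]
    simp only [Nat.isUnit_iff, IsUnit.dvd, ↓reduceIte, Nat.div_one]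
    rw [show 3 + n = n + 1 + 2 by ring]

theorem six_choose (n : ℕ) : (6 : ℤ) * ((Nat.choose (n + 2) 3 : ℕ) : ℤ) = (n + 2) * (n + 1) * n := by
  have h := Nat.descFactorial_eq_factorial_mul_choose (n + 2) 3
  have h1 : (n + 2).descFactorial 3 = (n + 2) * (n + 1) * n := by
    simp only [Nat.descFactorial_succ, Nat.descFactorial_zero]
    rw [show n + 2 - 0 = n + 2 by omega, show n + 2 - 1 = n + 1 by omega,
      show n + 2 - 2 = n by omega]
    ring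
  rw [h1] at h
  have h2 : (Nat.factorial 3 : ℕ) = 6 := by rfl
  rw [h2] at h
  have h3 := congrArg (Nat.cast : ℕ → ℤ) h
  push_cast at h3
  linarith

theorem U_one : U 1 = 1 := by
  have h := U_V_mul 1 1
  ext n
  rw [coeff_U, coeff_one, coeff_one]
  simp

theorem U_w : U w = 3 * w := by
  ext n
  rw [coeff_U, coeff_w, show (3 : ℤ⟦X⟧) = ((3 : ℤ) : ℤ⟦X⟧) by norm_num, ← zsmul_eq_mul, map_zsmul,
    coeff_w]
  push_cast
  simp

theorem U_w_sq : U (w ^ 2) = 27 * w ^ 2 + 4 * w := by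
  ext n
  have e : (27 * w ^ 2 + 4 * w : ℤ⟦X⟧) = (27 : ℤ) • w ^ 2 + (4 : ℤ) • w := by
    rw [zsmul_eq_mul, zsmul_eq_mul]; norm_num
  rw [coeff_U, e, map_add, map_zsmul, map_zsmul, coeff_w]
  rcases n with _ | n
  · have : w ^ 2 = X * (X * iv 1 ^ 4) := by unfold w; ring
    simp [this]
  · rw [show 3 * (n + 1) = (3 * n + 2) + 1 by ring, coeff_w_sq, coeff_w_sq]
    have h1 := six_choose (3 * n + 2)
    have h2 := six_choose n
    push_cast at h1 h2 ⊢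
    simp only [smul_eq_mul]
    linarith

/-! ### The subring `ℤ[u]` and the set `u ℤ[u]` -/

/-- `ℤ[u]` -/
noncomputable def R : Subring ℤ⟦X⟧ := Subring.closure {u}

theorem u_mem : u ∈ R := Subring.subset_closure rfl

/-- `u ℤ[u]` -/
def M (f : ℤ⟦X⟧) : Prop := ∃ g ∈ R, f = u * g

theorem M_add {f g : ℤ⟦X⟧} (hf : M f) (hg : M g) : M (f + g) := by
  obtain ⟨a, ha, rfl⟩ := hf
  obtain ⟨b, hb, rfl⟩ := hg
  exact ⟨a + b, R.add_mem ha hb, by ring⟩

theorem M_mul {f g : ℤ⟦X⟧} (hf : M f) (hg : g ∈ R) : M (f * g) := by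
  obtain ⟨a, ha, rfl⟩ := hf
  exact ⟨a * g, R.mul_mem ha hg, by ring⟩

theorem M_zero : M 0 := ⟨0, R.zero_mem, by ring⟩

theorem M_mem {f : ℤ⟦X⟧} (hf : M f) : f ∈ R := by
  obtain ⟨a, ha, rfl⟩ := hf
  exact R.mul_mem u_mem ha

theorem M_sum {ι : Type*} (s : Finset ι) (f : ι → ℤ⟦X⟧) (h : ∀ i ∈ s, M (f i)) :
    M (∑ i ∈ s, f i) := by
  classical
  induction s using Finset.induction_on with
  | empty => simpa using M_zero
  | insert a s ha ih =>
    rw [sum_insert ha]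
    exact M_add (h a (mem_insert_self a s)) (ih fun i hi => h i (mem_insert_of_mem hi))

/-- `b k = U (u ^ k)` -/
noncomputable def b (k : ℕ) : ℤ⟦X⟧ := U (u ^ k)

theorem b_zero : b 0 = 1 := by unfold b; rw [pow_zero, U_one]

theorem b_one : b 1 = 3 * u := by
  unfold b u
  rw [pow_one, show (3 : ℤ⟦X⟧) = ((3 : ℤ) : ℤ⟦X⟧) by norm_num, U_intCast_mul, U_w]
  push_cast
  ring

theorem b_two : b 2 = 3 * (9 * u ^ 2 + 4 * u) := by
  unfold b u
  rw [show (3 * w) ^ 2 = ((9 : ℤ) : ℤ⟦X⟧) * w ^ 2 by push_cast; ring, U_intCast_mul, U_w_sq]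
  push_cast
  ring

theorem b_succ (k : ℕ) : b (k + 3) = 9 * u * (b k + 2 * b (k + 1) + b (k + 2)) := by
  have e : u ^ (k + 3) = ((27 : ℤ) : ℤ⟦X⟧) * (V w * (u ^ k + ((2 : ℤ) : ℤ⟦X⟧) * u ^ (k + 1) +
      u ^ (k + 2))) := by
    have h : u ^ 3 = 27 * w ^ 3 := by unfold u; ring
    calc u ^ (k + 3) = u ^ 3 * u ^ k := by ring
      _ = 27 * (V w * (1 + u) ^ 2) * u ^ k := by rw [h, w_cube]
      _ = _ := by push_cast; ring
  unfold b
  rw [e, U_intCast_mul, U_V_mul, U_add, U_add, U_intCast_mul]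
  unfold u
  push_cast
  ring

theorem b_mem (k : ℕ) : b k ∈ R := by
  induction k using Nat.strong_induction_on with
  | _ k ih =>
    have h3 : (3 : ℤ⟦X⟧) ∈ R := by
      have := intCast_mem R 3
      exact_mod_cast this
    have h4 : (4 : ℤ⟦X⟧) ∈ R := by
      have := intCast_mem R 4
      exact_mod_cast this
    have h9 : (9 : ℤ⟦X⟧) ∈ R := by
      have := intCast_mem R 9
      exact_mod_cast this
    have h2 : (2 : ℤ⟦X⟧) ∈ R := by
      have := intCast_mem R 2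
      exact_mod_cast this
    rcases k with _ | _ | _ | k
    · rw [b_zero]; exact R.one_mem
    · rw [b_one]; exact R.mul_mem h3 u_mem
    · rw [b_two]
      exact R.mul_mem h3 (R.add_mem (R.mul_mem h9 (R.pow_mem u_mem 2)) (R.mul_mem h4 u_mem))
    · rw [b_succ]
      exact R.mul_mem (R.mul_mem h9 u_mem) (R.add_mem (R.add_mem (ih k (by omega))
        (R.mul_mem h2 (ih (k + 1) (by omega)))) (ih (k + 2) (by omega)))

/-- for `k ≥ 1` the series `U (u ^ k)` is in `3 u ℤ[u]` -/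
theorem b_three (k : ℕ) : ∃ g, M g ∧ b (k + 1) = 3 * g := by
  have hn : ∀ c : ℤ, (c : ℤ⟦X⟧) ∈ R := fun c => intCast_mem R c
  rcases k with _ | _ | k
  · exact ⟨u, ⟨1, R.one_mem, by ring⟩, by rw [b_one]⟩
  · refine ⟨9 * u ^ 2 + 4 * u, ⟨9 * u + 4, ?_, by ring⟩, by rw [b_two]⟩
    have h9 := hn 9
    have h4 := hn 4
    push_cast at h9 h4
    exact R.add_mem (R.mul_mem h9 u_mem) h4
  · refine ⟨u * (3 * (b k + 2 * b (k + 1) + b (k + 2))), ⟨_, ?_, rfl⟩, by rw [b_succ]; ring⟩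
    have h3 := hn 3
    have h2 := hn 2
    push_cast at h3 h2
    exact R.mul_mem h3 (R.add_mem (R.add_mem (b_mem _) (R.mul_mem h2 (b_mem _))) (b_mem _))

/-- the coefficients of `u` in `U (u ^ k)` modulo `27` -/
def c : ℕ → ℤ
  | 0 => 0
  | 1 => 3
  | 2 => 12
  | 3 => 9
  | _ => 0

theorem b_mod (k : ℕ) : ∃ g, M g ∧ b (k + 1) = (c (k + 1) : ℤ⟦X⟧) * u + 27 * g := by
  have hn : ∀ c : ℤ, (c : ℤ⟦X⟧) ∈ R := fun c => intCast_mem R c
  rcases k with _ | _ | _ | k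
  · exact ⟨0, M_zero, by rw [b_one]; simp [c]⟩
  · exact ⟨u * u, ⟨u, u_mem, rfl⟩, by rw [b_two]; simp only [c]; push_cast; ring⟩
  · obtain ⟨g1, hg1, e1⟩ := b_three 0
    obtain ⟨g2, hg2, e2⟩ := b_three 1
    refine ⟨u * (2 * g1 + g2), ⟨_, ?_, rfl⟩, ?_⟩
    · have h2 := hn 2
      push_cast at h2
      exact R.add_mem (R.mul_mem h2 (M_mem hg1)) (M_mem hg2)
    · have h := b_succ 0
      simp only [zero_add] at h e1 e2 ⊢
      rw [show (1 + 1 : ℕ) = 2 by rfl] at e2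
      rw [show (1 + 1 + 1 : ℕ) = 3 by rfl, h, e1, e2, b_zero]
      simp only [c]
      push_cast
      ring
  · obtain ⟨g1, hg1, e1⟩ := b_three k
    obtain ⟨g2, hg2, e2⟩ := b_three (k + 1)
    obtain ⟨g3, hg3, e3⟩ := b_three (k + 2)
    refine ⟨u * (g1 + 2 * g2 + g3), ⟨_, ?_, rfl⟩, ?_⟩
    · have h2 := hn 2
      push_cast at h2
      exact R.add_mem (R.add_mem (M_mem hg1) (R.mul_mem h2 (M_mem hg2))) (M_mem hg3)
    · have h := b_succ (k + 1)
      rw [show k + 1 + 3 = k + 1 + 1 + 1 + 1 by ring, show k + 1 + 1 = k + 2 by ring,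
        show k + 1 + 2 = k + 2 + 1 by ring] at h
      rw [show k + 1 + 1 = k + 2 by ring] at e2
      rw [show k + 1 + 1 + 1 = k + 2 + 1 by ring, h, e1, e2, e3]
      simp only [c]
      push_cast
      ring

end Pool.Agent.P8H15.DM
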