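import Mathlib
import Pool.Agent.P8H15.DM.Core

/-!
# Coloured ternary partitions: the functional equation and the divisibility
-/

set_option autoImplicit false

namespace Pool.Agent.P8H15.DM

open PowerSeries Finset Pool.Agent.R443.PS

theorem exists_poly {g : ℤ⟦X⟧} (hg : g ∈ R) : ∃ P : Polynomial ℤ, Polynomial.aeval u P = g := by
  unfold R at hg
  induction hg using Subring.closure_induction with
  | mem x hx =>
    rw [Set.mem_singleton_iff] at hx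
    exact ⟨Polynomial.X, by rw [Polynomial.aeval_X, hx]⟩
  | zero => exact ⟨0, by simp⟩
  | one => exact ⟨1, by simp⟩
  | add x y _ _ hx hy =>
    obtain ⟨P, rfl⟩ := hx
    obtain ⟨Q, rfl⟩ := hy
    exact ⟨P + Q, by simp⟩
  | neg x _ hx =>
    obtain ⟨P, rfl⟩ := hx
    exact ⟨-P, by simp⟩
  | mul x y _ _ hx hy =>
    obtain ⟨P, rfl⟩ := hx
    obtain ⟨Q, rfl⟩ := hy
    exact ⟨P * Q, by simp⟩

/-- `U` maps `u ℤ[u]` into `3 u ℤ[u]` -/
theorem U_M {f : ℤ⟦X⟧} (hf : M f) : ∃ g, M g ∧ U f = 3 * g := by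
  obtain ⟨g, hg, rfl⟩ := hf
  obtain ⟨P, rfl⟩ := exists_poly hg
  clear hg
  induction P using Polynomial.induction_on' with
  | add P Q hP hQ =>
    obtain ⟨g1, h1, e1⟩ := hP
    obtain ⟨g2, h2, e2⟩ := hQ
    refine ⟨g1 + g2, M_add h1 h2, ?_⟩
    rw [map_add, mul_add, U_add, e1, e2]
    ring
  | monomial n a =>
    obtain ⟨g, hg, e⟩ := b_three n
    refine ⟨g * (a : ℤ⟦X⟧), M_mul hg (intCast_mem R a), ?_⟩
    have h1 : u * Polynomial.aeval u (Polynomial.monomial n a) = (a : ℤ⟦X⟧) * u ^ (n + 1) := by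
      rw [Polynomial.aeval_monomial]
      simp only [eq_intCast]
      ring
    have e' : U (u ^ (n + 1)) = 3 * g := e
    rw [h1, U_intCast_mul, e']
    ring

/-- the coefficient of `u` in `U ((1 + u) ^ m)` modulo `27` -/
def al (m : ℕ) : ℤ := 3 * m + 12 * (m.choose 2 : ℕ) + 9 * (m.choose 3 : ℕ)

theorem U_G (m : ℕ) : ∃ g, M g ∧ U ((1 + u) ^ m) = 1 + (al m : ℤ⟦X⟧) * u + 27 * g := by
  have e1 : (1 + u) ^ m = ∑ k ∈ range (m + 4), ((m.choose k : ℤ) : ℤ⟦X⟧) * u ^ k := by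
    rw [add_comm 1 u, add_pow]
    have h : ∀ k, u ^ k * 1 ^ (m - k) * ((m.choose k : ℕ) : ℤ⟦X⟧) =
        ((m.choose k : ℤ) : ℤ⟦X⟧) * u ^ k := by
      intro k
      rw [one_pow]
      push_cast
      ring
    rw [sum_congr rfl (fun k _ => h k)]
    apply sum_subset
    · intro k hk
      rw [mem_range] at hk ⊢
      omega
    · intro k _ hk
      rw [mem_range, not_lt] at hk
      rw [Nat.choose_eq_zero_of_lt (by omega)]
      simp
  have e2 : U ((1 + u) ^ m) = ∑ k ∈ range (m + 4), ((m.choose k : ℤ) : ℤ⟦X⟧) * b k := by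
    rw [e1, U_sum]
    exact sum_congr rfl (fun k _ => U_intCast_mul _ _)
  choose g hg eg using b_mod
  refine ⟨∑ k ∈ range (m + 3), g k * ((m.choose (k + 1) : ℤ) : ℤ⟦X⟧), M_sum _ _ (fun k _ =>
    M_mul (hg k) (intCast_mem R _)), ?_⟩
  rw [e2, sum_range_succ', b_zero]
  have e3 : ∀ k, ((m.choose (k + 1) : ℤ) : ℤ⟦X⟧) * b (k + 1) =
      ((m.choose (k + 1) : ℤ) * c (k + 1) : ℤ) * u +
        27 * (g k * ((m.choose (k + 1) : ℤ) : ℤ⟦X⟧)) := by
    intro k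
    rw [eg]
    push_cast
    ring
  rw [sum_congr rfl (fun k _ => e3 k), sum_add_distrib, ← mul_sum, ← sum_mul]
  have e4 : ∑ k ∈ range (m + 3), ((m.choose (k + 1) : ℤ) * c (k + 1)) = al m := by
    rw [sum_range_succ', sum_range_succ', sum_range_succ']
    rw [sum_eq_zero (fun k _ => by simp [c])]
    unfold al
    simp only [c, zero_add, Nat.choose_one_right]
    push_cast
    ring
  have e5 : ∑ k ∈ range (m + 3), (((m.choose (k + 1) : ℤ) * c (k + 1) : ℤ) : ℤ⟦X⟧) =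
      (al m : ℤ⟦X⟧) := by
    rw [← e4]
    push_cast
    rfl
  rw [e5]
  simp
  ring

/-! ### The products -/

/-- the product of the first factors -/
noncomputable def DN (m N : ℕ) : ℤ⟦X⟧ := iv 1 ^ m * ∏ j ∈ range N, iv (3 ^ j) ^ (2 * m)

theorem DN_stable (m n N : ℕ) (h : n + 1 ≤ N) : coeff n (DN m N) = coeff n (DN m (n + 1)) := by
  induction N, h using Nat.le_induction with
  | base => rfl
  | succ N hN ih =>
    have e : DN m (N + 1) = iv (3 ^ N) ^ (2 * m) * DN m N := by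
      unfold DN
      rw [prod_range_succ]
      ring
    rw [e, coeff_iv_pow_mul_of_lt, ih]
    exact lt_of_lt_of_le (by omega : n < N) (Nat.lt_pow_self (by norm_num : 1 < 3)).le

/-- the generating function -/
noncomputable def D (m : ℕ) : ℤ⟦X⟧ := mk fun n => coeff n (DN m (n + 1))

theorem coeff_D (m n N : ℕ) (h : n + 1 ≤ N) : coeff n (D m) = coeff n (DN m N) := by
  unfold D
  rw [coeff_mk, DN_stable m n N h]

theorem V_prod {ι : Type*} (s : Finset ι) (f : ι → ℤ⟦X⟧) : V (∏ i ∈ s, f i) = ∏ i ∈ s, V (f i) := by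
  unfold V
  rw [map_prod]

theorem DN_succ (m N : ℕ) : DN m (N + 1) = V (DN m N) * (1 + u) ^ m := by
  unfold DN
  rw [V_mul, V_prod, V_pow, V_iv one_ne_zero, prod_range_succ', pow_zero, mul_one, one_add_u]
  have h : ∀ j, V (iv (3 ^ j) ^ (2 * m)) = iv (3 ^ (j + 1)) ^ (2 * m) := by
    intro j
    rw [V_pow, V_iv (by positivity), pow_succ, mul_comm]
  rw [prod_congr rfl (fun j _ => h j)]
  have h3 := mul_iv (d := 3) (by norm_num)
  have h4 : (iv 3 : ℤ⟦X⟧) ^ m * ((1 - X ^ 3) * iv 1 ^ 3) ^ m = iv 1 ^ (3 * m) := by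
    calc (iv 3 : ℤ⟦X⟧) ^ m * ((1 - X ^ 3) * iv 1 ^ 3) ^ m
        = ((1 - X ^ 3) * iv 3) ^ m * iv 1 ^ (3 * m) := by
          rw [mul_pow, mul_pow, ← pow_mul]; ring
      _ = iv 1 ^ (3 * m) := by rw [h3]; ring
  calc iv 1 ^ m * ((∏ j ∈ range N, iv (3 ^ (j + 1)) ^ (2 * m)) * iv 1 ^ (2 * m))
      = iv 1 ^ (3 * m) * ∏ j ∈ range N, iv (3 ^ (j + 1)) ^ (2 * m) := by ring
    _ = _ := by rw [← h4]; ring

/-- the functional equation -/
theorem D_eq (m : ℕ) : D m = V (D m) * (1 + u) ^ m := by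
  ext n
  rw [coeff_D m n (n + 1 + 1) (by omega), DN_succ, coeff_mul, coeff_mul]
  apply sum_congr rfl
  rintro ⟨i, j⟩ hij
  have hij' : i + j = n := by simpa using hij
  congr 1
  unfold V
  simp only
  rw [coeff_expand, coeff_expand]
  split_ifs with h
  · rw [coeff_D m (i / 3) (n + 1) (by omega)]
  · rfl

theorem G_mem (m : ℕ) : (1 + u) ^ m ∈ R := R.pow_mem (R.add_mem R.one_mem u_mem) m

theorem U_mul_D (m : ℕ) (h : ℤ⟦X⟧) : U (h * D m) = U (h * (1 + u) ^ m) * D m := by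
  have e : h * D m = V (D m) * (h * (1 + u) ^ m) := by
    calc h * D m = h * (V (D m) * (1 + u) ^ m) := by rw [← D_eq]
      _ = _ := by ring
  rw [e, U_V_mul, mul_comm]

/-- the coefficient of `X ^ n` of an element of `u ℤ[u] D` is divisible by `3 ^ (1 + v(n))` -/
theorem key (m k : ℕ) : ∀ (h : ℤ⟦X⟧), M h → ∀ n : ℕ, (3 : ℤ) ^ (k + 1) ∣ coeff (3 ^ k * n) (h * D m) := by
  induction k with
  | zero =>
    intro h hh n
    obtain ⟨g, _, rfl⟩ := hh
    have e : u * g * D m = (3 : ℤ) • (w * g * D m) := by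
      unfold u
      rw [zsmul_eq_mul]
      push_cast
      ring
    rw [e, map_zsmul]
    exact ⟨_, by simp only [smul_eq_mul]; ring⟩
  | succ k ih =>
    intro h hh n
    have e : coeff (3 ^ (k + 1) * n) (h * D m) = coeff (3 ^ k * n) (U (h * D m)) := by
      rw [coeff_U, show 3 ^ (k + 1) * n = 3 * (3 ^ k * n) by ring]
    obtain ⟨g, hg, eg⟩ := U_M (M_mul hh (G_mem m))
    rw [e, U_mul_D, eg]
    have e2 : 3 * g * D m = (3 : ℤ) • (g * D m) := by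
      rw [zsmul_eq_mul]
      push_cast
      ring
    rw [e2, map_zsmul, pow_succ']
    simp only [smul_eq_mul]
    exact mul_dvd_mul_left 3 (ih g hg n)

/-- `U (U D) - D` -/
theorem UU (m : ℕ) (e : ℕ) (g : ℤ⟦X⟧) (hg : M g) (hA : U ((1 + u) ^ m) = 1 + 3 ^ e * g) :
    ∃ h, M h ∧ U (U (D m)) - D m = 3 ^ e * ((g + 3 * h) * D m) := by
  obtain ⟨h, hh, eh⟩ := U_M (M_mul hg (G_mem m))
  refine ⟨h, hh, ?_⟩
  have e1 : U (D m) = U ((1 + u) ^ m) * D m := by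
    have := U_mul_D m 1
    rwa [one_mul, one_mul] at this
  rw [e1, U_mul_D]
  have e2 : U ((1 + u) ^ m) * (1 + u) ^ m = (1 + u) ^ m + ((3 ^ e : ℤ) : ℤ⟦X⟧) * (g * (1 + u) ^ m) := by
    rw [hA]
    push_cast
    ring
  rw [e2, U_add, U_intCast_mul, eh, hA]
  push_cast
  ring

theorem main (m e : ℕ) (he : e ≤ 3) (hm : (3 : ℤ) ^ e ∣ al m) (n : ℕ) :
    (3 : ℤ) ^ (padicValNat 3 n + e + 1) ∣ coeff (9 * n) (D m) - coeff n (D m) := by
  obtain ⟨g0, hg0, e0⟩ := U_G m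
  obtain ⟨β, hβ⟩ := hm
  have h27 : (27 : ℤ⟦X⟧) = 3 ^ e * ((3 ^ (3 - e) : ℤ) : ℤ⟦X⟧) := by
    push_cast
    rw [← pow_add, show e + (3 - e) = 3 by omega]
    norm_num
  have hg : M (u * (β : ℤ⟦X⟧) + g0 * ((3 ^ (3 - e) : ℤ) : ℤ⟦X⟧)) :=
    M_add ⟨_, intCast_mem R β, rfl⟩ (M_mul hg0 (intCast_mem R _))
  have hA : U ((1 + u) ^ m) = 1 + 3 ^ e * (u * (β : ℤ⟦X⟧) + g0 * ((3 ^ (3 - e) : ℤ) : ℤ⟦X⟧)) := by
    rw [e0, h27, hβ]
    push_cast
    ring
  obtain ⟨h, hh, eh⟩ := UU m e _ hg hA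
  have e1 : coeff (9 * n) (D m) - coeff n (D m) = coeff n (U (U (D m)) - D m) := by
    rw [map_sub, coeff_U, coeff_U, show 9 * n = 3 * (3 * n) by ring]
  rw [e1, eh]
  set f : ℤ⟦X⟧ := u * (β : ℤ⟦X⟧) + g0 * ((3 ^ (3 - e) : ℤ) : ℤ⟦X⟧) + 3 * h with hf
  have hM : M f := M_add hg (by
    have := M_mul hh (intCast_mem R 3)
    push_cast at this
    rwa [mul_comm] at this)
  have e2 : (3 : ℤ⟦X⟧) ^ e * (f * D m) = ((3 : ℤ) ^ e) • (f * D m) := by
    rw [zsmul_eq_mul]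
    push_cast
    ring
  rw [e2, map_zsmul, smul_eq_mul]
  obtain ⟨n', hn'⟩ := pow_padicValNat_dvd (p := 3) (n := n)
  have h3 := key m (padicValNat 3 n) f hM n'
  rw [← hn'] at h3
  rw [show padicValNat 3 n + e + 1 = e + (padicValNat 3 n + 1) by ring, pow_add]
  exact mul_dvd_mul_left _ h3

/-! ### The exact value for `n` prime to `3` -/

theorem D_mod (m n : ℕ) (hn : 1 ≤ n) : (3 : ℤ) ∣ coeff n (D m) := by
  induction n using Nat.strong_induction_on with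
  | _ n ih =>
    have h1 : ∃ q : ℤ⟦X⟧, (1 + u) ^ m = 1 + 3 * q := by
      have : (3 : ℤ⟦X⟧) ∣ (1 + u) ^ m - 1 ^ m := by
        refine dvd_trans ?_ (sub_dvd_pow_sub_pow (1 + u) 1 m)
        exact ⟨w, by unfold u; ring⟩
      obtain ⟨q, hq⟩ := this
      exact ⟨q, by rw [one_pow] at hq; rw [← hq]; ring⟩
    obtain ⟨q, hq⟩ := h1
    have e : D m = V (D m) + (3 : ℤ) • (q * V (D m)) := by
      calc D m = V (D m) * (1 + u) ^ m := D_eq m
        _ = _ := by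
          rw [hq, zsmul_eq_mul]
          push_cast
          ring
    rw [e, map_add, map_zsmul, smul_eq_mul]
    apply dvd_add _ (dvd_mul_right 3 _)
    unfold V
    rw [coeff_expand]
    split_ifs with h
    · obtain ⟨k, rfl⟩ := h
      rw [Nat.mul_div_cancel_left _ (by norm_num)]
      exact ih k (by omega) (by omega)
    · exact dvd_zero 3

theorem coeff_w_D (m n : ℕ) : (3 : ℤ) ∣ coeff n (w * D m) - n * coeff 0 (D m) := by
  rw [coeff_mul, Finset.Nat.sum_antidiagonal_eq_sum_range_succ_mk, sum_range_succ, coeff_w,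
    Nat.sub_self, add_sub_cancel_right]
  apply dvd_sum
  intro i hi
  rw [mem_range] at hi
  exact dvd_mul_of_dvd_right (D_mod m (n - i) (by omega)) _

theorem D_zero (m : ℕ) : coeff 0 (D m) = 1 := by
  rw [coeff_D m 0 1 le_rfl]
  unfold DN
  rw [prod_range_one, pow_zero, ← pow_add]
  rcases h : m + 2 * m with _ | k
  · simp
  · rw [coeff_iv_pow_succ one_ne_zero]
    simp

theorem exact (m n : ℕ) (h9 : (9 : ℤ) ∣ al m) (h27 : ¬ (27 : ℤ) ∣ al m) (hn : ¬ 3 ∣ n) :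
    ¬ (81 : ℤ) ∣ coeff (9 * n) (D m) - coeff n (D m) := by
  obtain ⟨g0, hg0, e0⟩ := U_G m
  obtain ⟨β, hβ⟩ := h9
  have hg : M (u * (β : ℤ⟦X⟧) + g0 * ((3 : ℤ) : ℤ⟦X⟧)) :=
    M_add ⟨_, intCast_mem R β, rfl⟩ (M_mul hg0 (intCast_mem R _))
  have hA : U ((1 + u) ^ m) = 1 + 3 ^ 2 * (u * (β : ℤ⟦X⟧) + g0 * ((3 : ℤ) : ℤ⟦X⟧)) := by
    rw [e0, hβ]
    push_cast
    ring
  obtain ⟨h, hh, eh⟩ := UU m 2 _ hg hA
  have e1 : coeff (9 * n) (D m) - coeff n (D m) = coeff n (U (U (D m)) - D m) := by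
    rw [map_sub, coeff_U, coeff_U, show 9 * n = 3 * (3 * n) by ring]
  obtain ⟨q, hq⟩ := key m 0 (g0 + h) (M_add hg0 hh) n
  have e2 : (3 : ℤ⟦X⟧) ^ 2 * ((u * (β : ℤ⟦X⟧) + g0 * ((3 : ℤ) : ℤ⟦X⟧) + 3 * h) * D m) =
      (27 * β) • (w * D m) + (27 : ℤ) • ((g0 + h) * D m) := by
    unfold u
    rw [zsmul_eq_mul, zsmul_eq_mul]
    push_cast
    ring
  rw [e1, eh, e2, map_add, map_zsmul, map_zsmul, smul_eq_mul, smul_eq_mul]
  rw [pow_zero, one_mul, zero_add, pow_one] at hq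
  rw [hq]
  obtain ⟨r, hr⟩ := coeff_w_D m n
  rw [D_zero, mul_one] at hr
  have hr' : coeff n (w * D m) = n + 3 * r := by linarith
  rw [hr']
  rintro ⟨s, hs⟩
  have h3 : (3 : ℤ) ∣ β * n := ⟨s - q - β * r, by linarith⟩
  rcases (Int.prime_three.dvd_or_dvd h3) with h4 | h4
  · apply h27
    obtain ⟨t, rfl⟩ := h4
    exact ⟨t, by rw [hβ]; ring⟩
  · exact hn (by exact_mod_cast h4)

end Pool.Agent.P8H15.DM
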